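import Pool.Agent.ASD.Stmts3
import Pool.Agent.ASD.Stmts4
import Pool.Agent.Helper16_AT6.SMH
import Pool.Agent.Helper89_AT5.CO5
import Pool.Agent.Helper62_AT3.LCJ
import Pool.Agent.Helper69_KF.K4
import Pool.Agent.Helper18_PP.Dzf
import Pool.Agent.Helper32_AT6.IPS

/-!
# Squad ASD, row FIB: the sum over the regular elements for given `y` and given `ℓ`-part

Author: helper95.
-/

open scoped BigOperators

set_option autoImplicit false
set_option linter.unusedSectionVars false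

noncomputable section

namespace Pool.Agent.PP.SD.H95

open Pool.Agent.Helper51_AWC Pool.Agent.Helper79_WRA Pool.Agent.PP Pool.Agent.PP.KF
open Pool.Agent.PP.K9 Pool.Agent.PP.K9.H97 Pool.Agent.PP.H75 Pool.Agent.PP.T3 Pool.Agent.PP.SO

attribute [local instance] Ideal.Quotient.field

section loc

variable {ℓ : ℕ} [Fact ℓ.Prime] {M : Ideal (integralClosure ℤ ℂ)} [M.IsMaximal]
  {G : Type} [Group G] [Finite G]

theorem reg_coe {C : Subgroup G} {s : C} : Reg ℓ (s : G) ↔ Reg ℓ s := by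
  unfold Reg
  rw [Subgroup.orderOf_coe]

/-- the values of a character of an idempotent of the subgroup `X` on the section of `z` -/
theorem sec (smg : T3.SmgStmt) (hM : (ℓ : integralClosure ℤ ℂ) ∈ M) {X K : Subgroup G}
    {b : G → FF M} (hb : IsIdem (fun t : X => b t)) {χ : G → ℂ}
    (hχ : (fun t : X => χ t) ∈ IrrE M (fun t : X => b t)) {z : G} (hz : z ∈ X) (hel : El ℓ z)
    (hK : ∀ x, x ∈ K ↔ x ∈ X ∧ x * z = z * x) :
    IsIdem (fun t : K => b t) ∧ ∃ ξ ∈ Submodule.span ℂ (IrrE M (fun t : K => b t)),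
      ∀ s : K, Reg ℓ s → χ (z * s) = ξ s := by
  classical
  have hF : GoodF ℓ (FF M) := H50.fld ℓ Fact.out M hM
  obtain ⟨z', hz'⟩ : ∃ z' : X, (z' : G) = z := ⟨⟨z, hz⟩, rfl⟩
  have hel' : El ℓ z' := by
    obtain ⟨n, hn⟩ := hel
    exact ⟨n, Subtype.ext (by rw [Subgroup.coe_pow, hz', hn]; rfl)⟩
  have hmem : ∀ x : X, x ∈ Cu z' ↔ (x : G) ∈ K := by
    intro x
    rw [Subgroup.mem_centralizer_singleton_iff, hK]
    constructor
    · intro h
      refine ⟨x.2, ?_⟩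
      have h1 := congrArg Subtype.val h
      rw [← hz']
      exact h1
    · rintro ⟨-, h⟩
      apply Subtype.ext
      rw [← hz'] at h
      exact h
  obtain ⟨φ, hφ⟩ : ∃ φ : Cu z' ≃* K, ∀ k : K, (((φ.symm k : Cu z') : X) : G) = k :=
    ⟨{ toFun := fun t => ⟨((t : X) : G), (hmem t).1 t.2⟩
       invFun := fun t => ⟨⟨t, ((hK t).1 t.2).1⟩, (hmem _).2 t.2⟩
       left_inv := fun _ => rfl
       right_inv := fun _ => rfl
       map_mul' := fun _ _ => rfl }, fun _ => rfl⟩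
  have := Fintype.ofFinite G
  have := Fintype.ofFinite (Cu z')
  obtain ⟨b', hb'⟩ : ∃ b' : Cu z' → FF M, b' = fun t : Cu z' => b ((t : X) : G) := ⟨_, rfl⟩
  have hid : IsIdem b' := by
    rw [hb']
    exact T3.H98.idem_cu hF hb hel'
  have hbK : (fun t : K => b t) = fun t : K => b' (φ.symm t) := by
    rw [hb']
    funext t
    exact congrArg b (hφ t).symm
  have hχ' := hχ.1
  obtain ⟨ψ, hψ⟩ : ∃ ψ : X → ℂ, ψ = fun t : X => χ t := ⟨_, rfl⟩
  rw [← hψ] at hχ hχ'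
  have hψc : ∀ x y : X, ψ (y * x * y⁻¹) = ψ x := fun x y => irr_conj hχ' x y
  -- the function
  obtain ⟨zc, hzc⟩ : ∃ zc : Cu z', (zc : X) = z' :=
    ⟨⟨z', Subgroup.mem_centralizer_singleton_iff.2 rfl⟩, rfl⟩
  have hzcc : ∀ c : Cu z', zc * c = c * zc := by
    intro c
    apply Subtype.ext
    show (zc : X) * c = c * zc
    rw [hzc]
    exact (Subgroup.mem_centralizer_singleton_iff.1 c.2).symm
  have hsp : (fun c : Cu z' => ψ c) ∈ Submodule.span ℂ (Irr (Cu z')) := by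
    apply T3.H98.span_irr
    intro x y
    exact hψc x y
  have hq := T3.H98.mem_span_blk (M := M) b' hzcc hsp
  obtain ⟨q, hqd⟩ : ∃ q : Cu z' → ℂ, q = fun c => ∑ t, eh M b' t * ψ ((zc * c * t : Cu z') : X) :=
    ⟨_, rfl⟩
  rw [← hqd] at hq
  refine ⟨?_, fun k => q (φ.symm k), ?_, ?_⟩
  · rw [hbK]
    exact H18.idem_equiv φ.symm hid
  · rw [hbK]
    have h1 : ∀ f ∈ Submodule.span ℂ (IrrE M b'), (fun k : K => f (φ.symm k)) ∈
        Submodule.span ℂ (IrrE M fun t : K => b' (φ.symm t)) := by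
      intro f hf
      induction hf using Submodule.span_induction with
      | mem f hf => exact Submodule.subset_span (T5.H89.irrE_equiv φ hid.1 hf)
      | zero => exact Submodule.zero_mem _
      | add f g _ _ h1 h2 => exact Submodule.add_mem _ h1 h2
      | smul c f _ h1 => exact Submodule.smul_mem _ c h1
    exact h1 q hq
  · intro s hs
    have hs' : Reg ℓ ((φ.symm s : Cu z') : X) := by
      rw [← reg_coe, hφ, reg_coe]
      exact hs
    have h1 := T6.H16.smh smg ℓ M hM X (fun t : X => b t) hb z' hel' _ (φ.symm s).2 hs' ψ hψc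
    rw [(T6.H16.fv_eh _ hχ' _).1 hχ] at h1
    have h2 : ψ (z' * ((φ.symm s : Cu z') : X)) = χ (z * s) := by
      rw [hψ]
      show χ ((z' : G) * (((φ.symm s : Cu z') : X) : G)) = _
      rw [hφ, hz']
    rw [← h2, h1, hqd]
    unfold gv gbv
    rw [finsum_eq_sum_of_fintype]
    refine Finset.sum_congr rfl fun t _ => ?_
    have h3 : ((zc * φ.symm s * t : Cu z') : X) = z' * ((φ.symm s : Cu z') : X) * t := by
      rw [Subgroup.coe_mul, Subgroup.coe_mul, hzc]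
    rw [h3, hb']

/-- orthogonality on the regular elements -/
theorem dis (rot : RotStmt) (hM : (ℓ : integralClosure ℤ ℂ) ∈ M) {K : Type} [Group K] [Fintype K]
    {b₁ b₂ : K → FF M} (h1 : IsIdem b₁) (hd : ∀ θ ∈ IrrE M b₂, θ ∉ IrrE M b₁) {ξ₁ ξ₂ : K → ℂ}
    (hξ₁ : ξ₁ ∈ Submodule.span ℂ (IrrE M b₁)) (hξ₂ : ξ₂ ∈ Submodule.span ℂ (IrrE M b₂)) :
    ∑ s : K, (open Classical in if Reg ℓ s then ξ₁ s * starRingEnd ℂ (ξ₂ s) else 0) = 0 := by
  classical
  induction hξ₁ using Submodule.span_induction with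
  | mem θ hθ =>
    induction hξ₂ using Submodule.span_induction with
    | mem θ' hθ' =>
      have h2 := (rot ℓ M hM K b₁ h1).2 θ hθ θ' hθ'.1 (hd θ' hθ')
      rw [finsum_eq_sum_of_fintype] at h2
      refine Eq.trans (Finset.sum_congr rfl fun s _ => ?_) h2
      rw [finsum_eq_if]
    | zero => simp
    | add f g _ _ h2 h3 =>
      have : ∀ s : K, (if Reg ℓ s then θ s * starRingEnd ℂ ((f + g) s) else 0) =
          (if Reg ℓ s then θ s * starRingEnd ℂ (f s) else 0) +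
            (if Reg ℓ s then θ s * starRingEnd ℂ (g s) else 0) := by
        intro s
        split_ifs
        · rw [Pi.add_apply, map_add, mul_add]
        · rw [add_zero]
      rw [Finset.sum_congr rfl fun s _ => this s, Finset.sum_add_distrib, h2, h3, add_zero]
    | smul c f _ h2 =>
      have : ∀ s : K, (if Reg ℓ s then θ s * starRingEnd ℂ ((c • f) s) else 0) =
          starRingEnd ℂ c * (if Reg ℓ s then θ s * starRingEnd ℂ (f s) else 0) := by
        intro s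
        split_ifs
        · rw [Pi.smul_apply, smul_eq_mul, map_mul]
          ring
        · rw [mul_zero]
      rw [Finset.sum_congr rfl fun s _ => this s, ← Finset.mul_sum, h2, mul_zero]
  | zero => simp
  | add f g _ _ h2 h3 =>
    have : ∀ s : K, (if Reg ℓ s then (f + g) s * starRingEnd ℂ (ξ₂ s) else 0) =
        (if Reg ℓ s then f s * starRingEnd ℂ (ξ₂ s) else 0) +
          (if Reg ℓ s then g s * starRingEnd ℂ (ξ₂ s) else 0) := by
      intro s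
      split_ifs
      · rw [Pi.add_apply, add_mul]
      · rw [add_zero]
    rw [Finset.sum_congr rfl fun s _ => this s, Finset.sum_add_distrib, h2, h3, add_zero]
  | smul c f _ h2 =>
    have : ∀ s : K, (if Reg ℓ s then (c • f) s * starRingEnd ℂ (ξ₂ s) else 0) =
        c * (if Reg ℓ s then f s * starRingEnd ℂ (ξ₂ s) else 0) := by
      intro s
      split_ifs
      · rw [Pi.smul_apply, smul_eq_mul, mul_assoc]
      · rw [mul_zero]
    rw [Finset.sum_congr rfl fun s _ => this s, ← Finset.mul_sum, h2, mul_zero]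

/-- a block of `K` under both idempotents -/
theorem com (smg : T3.SmgStmt) (rot : RotStmt) (hM : (ℓ : integralClosure ℤ ℂ) ∈ M)
    {X Y K : Subgroup G} {b c : G → FF M} (hb : IsIdem (fun t : X => b t))
    (hc : IsIdem (fun t : Y => c t)) {χ ψ : G → ℂ}
    (hχ : (fun t : X => χ t) ∈ IrrE M (fun t : X => b t))
    (hψ : (fun t : Y => ψ t) ∈ IrrE M (fun t : Y => c t)) {z : G} (hz : z ∈ X) (hz' : z ∈ Y)
    (hel : El ℓ z) (hK : ∀ x, x ∈ K ↔ x ∈ X ∧ x * z = z * x)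
    (hK' : ∀ x, x ∈ K ↔ x ∈ Y ∧ x * z = z * x)
    (hne : ∑ᶠ (x : G) (_ : x ∈ K ∧ Reg ℓ x), χ (z * x) * starRingEnd ℂ (ψ (z * x)) ≠ 0) :
    ∃ β : G → FF M, Bx K β ∧ mulF (fun t : K => b t) (fun t : K => β t) = (fun t : K => β t) ∧
      mulF (fun t : K => c t) (fun t : K => β t) = (fun t : K => β t) := by
  classical
  have := Fintype.ofFinite G
  have := Fintype.ofFinite K
  obtain ⟨hb1, ξ, hξ, hξs⟩ := sec smg hM hb hχ hz hel hK
  obtain ⟨hc1, η, hη, hηs⟩ := sec smg hM hc hψ hz' hel hK'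
  rw [T6.H32.sumC ℓ K (fun x => χ (z * x) * starRingEnd ℂ (ψ (z * x)))] at hne
  have h1 : ∃ θ, θ ∈ IrrE M (fun t : K => b t) ∧ θ ∈ IrrE M (fun t : K => c t) := by
    by_contra hcon
    push Not at hcon
    apply hne
    refine Eq.trans (Finset.sum_congr rfl fun s _ => ?_)
      (dis rot hM hb1 (fun θ h1 h2 => hcon θ h2 h1) hξ hη)
    by_cases hs : Reg ℓ s
    · rw [if_pos hs, if_pos hs, hξs s hs, hηs s hs]
    · rw [if_neg hs, if_neg hs]
  obtain ⟨θ, hθ1, hθ2⟩ := h1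
  obtain ⟨f, hf⟩ : ∃ f, f = mulF (fun t : K => b t) (fun t : K => c t) := ⟨_, rfl⟩
  have hfi : IsIdem f := by
    rw [hf]
    exact H46.isIdem_mul hb1 hc1
  have hf0 : f ≠ 0 := by
    intro h0
    exact T5.H89.irrE_disj hb1 hc1 (by rw [← hf, h0]) hθ1 hθ2
  obtain ⟨g, hg⟩ : ∃ g, f g ≠ 0 := by
    by_contra hcon
    push Not at hcon
    exact hf0 (funext hcon)
  obtain ⟨β, hβ, hβf, -⟩ := KF.H69.exists_blk hfi hg
  have hβe : (fun t : K => H75.ext0 K β t) = β := funext (H75.ext0_apply K β)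
  refine ⟨H75.ext0 K β, ⟨H75.ext0_supp K β, by rw [hβe]; exact hβ⟩, ?_, ?_⟩
  · rw [hβe, ← hβf, ← H20.mulF_assoc, hf, ← H20.mulF_assoc, hb1.2]
  · rw [hβe, ← hβf, ← H20.mulF_assoc, hf, H20.mulF_comm_of_cl hb1.1, ← H20.mulF_assoc, hc1.2]

end loc

/-- FIB -/
theorem fib (psc : PscStmt) (fud : FudStmt) (smg : T3.SmgStmt) (rot : RotStmt) : FibStmt := by
  intro ℓ _ M _ hM h2 V₀ G _ _ _ _ E₀ hE B hB W W' χ hχ χ' hχ' y z hz hzW hzW' hq hp hne
  have memC : ∀ (W : Subgroup V₀) (x : G), x ∈ B.C W ↔ ∀ v ∈ W, B.i v * x = x * B.i v := by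
    intro W x
    unfold Bk.C
    rw [Subgroup.mem_centralizer_iff]
    constructor
    · intro h v hv
      exact h _ ⟨v, hv, rfl⟩
    · rintro h _ ⟨v, hv, rfl⟩
      exact h v hv
  obtain ⟨Y, hY⟩ : ∃ Y : Subgroup G, ∀ x, x ∈ Y ↔ y⁻¹ * x * y ∈ B.C W' :=
    ⟨conjS y (B.C W'), fun x => T3.H62.mem_conjS⟩
  have hK : ∀ x, x ∈ B.C W ⊓ Cu z ↔ x ∈ B.C W ∧ x * z = z * x := by
    intro x
    rw [Subgroup.mem_inf, Subgroup.mem_centralizer_singleton_iff]
  have hzx : ∀ x : G, x * z = z * x → ∀ k : ℤ, x * z ^ k = z ^ k * x := fun x hx k =>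
    (show Commute x z from hx).zpow_right k
  have hK' : ∀ x, x ∈ B.C W ⊓ Cu z ↔ x ∈ Y ∧ x * z = z * x := by
    intro x
    rw [hK, hY, memC, memC]
    constructor
    · rintro ⟨h, hx⟩
      refine ⟨fun q hqW => ?_, hx⟩
      obtain ⟨p, hpW, k, h3⟩ := hq q hqW
      have h4 : y * B.i q * y⁻¹ * x = x * (y * B.i q * y⁻¹) := by
        rw [h3, mul_assoc, ← hzx x hx k, ← mul_assoc, h p hpW, mul_assoc]
      have e1 : B.i q * (y⁻¹ * x * y) = y⁻¹ * (y * B.i q * y⁻¹ * x) * y := by group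
      rw [e1, h4]
      group
    · rintro ⟨h, hx⟩
      refine ⟨fun p hpW => ?_, hx⟩
      obtain ⟨q, hqW, k, h3⟩ := hp p hpW
      have h4 : y * B.i q * y⁻¹ * x = x * (y * B.i q * y⁻¹) := by
        have e1 : y * B.i q * y⁻¹ * x = y * (B.i q * (y⁻¹ * x * y)) * y⁻¹ := by group
        rw [e1, h q hqW]
        group
      rw [h3, mul_assoc, ← hzx x hx k, ← mul_assoc, h4, mul_assoc]
  -- the block of `Y`
  have hcB : Bx Y (cj y (B.b W')) := T3.H62.bx_cj (fun x => hY x) (hB.lb W').blk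
  obtain ⟨φ, hφ⟩ : ∃ φ : B.C W' ≃* Y, ∀ t : Y, ((φ.symm t : B.C W') : G) = y⁻¹ * t * y :=
    ⟨{ toFun := fun t => ⟨y * t * y⁻¹, (hY _).2 (by
          have e : y⁻¹ * (y * (t : G) * y⁻¹) * y = t := by group
          rw [e]
          exact t.2)⟩
       invFun := fun t => ⟨y⁻¹ * t * y, (hY _).1 t.2⟩
       left_inv := fun t => Subtype.ext (by
          show y⁻¹ * (y * (t : G) * y⁻¹) * y = t
          group)
       right_inv := fun t => Subtype.ext (by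
          show y * (y⁻¹ * (t : G) * y) * y⁻¹ = t
          group)
       map_mul' := fun s t => Subtype.ext (by
          show y * ((s : G) * t) * y⁻¹ = y * s * y⁻¹ * (y * t * y⁻¹)
          group) }, fun _ => rfl⟩
  obtain ⟨ψ, hψ⟩ : ∃ ψ : G → ℂ, ψ = fun x => χ' (y⁻¹ * x * y) := ⟨_, rfl⟩
  have hψE : (fun t : Y => ψ t) ∈ IrrE M (fun t : Y => cj y (B.b W') t) := by
    have h3 := T5.H89.irrE_equiv φ (hB.lb W').blk.blk.1.1 hχ'.2
    have e1 : (fun t : Y => (fun t : B.C W' => χ' t) (φ.symm t)) = fun t : Y => ψ t := by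
      funext t
      rw [hψ]
      exact congrArg χ' (hφ t)
    have e2 : (fun t : Y => (fun t : B.C W' => B.b W' t) (φ.symm t)) =
        fun t : Y => cj y (B.b W') t := by
      funext t
      exact congrArg (B.b W') (hφ t)
    rw [← e1, ← e2]
    exact h3
  have hstar : ∀ g : G, starRingEnd ℂ (χ' g) = χ' g⁻¹ := by
    intro g
    by_cases hg : g ∈ B.C W'
    · exact H94.irr_star hχ'.2.1 ⟨g, hg⟩
    · rw [hχ'.1 g hg, hχ'.1 g⁻¹ (fun h => hg ((Subgroup.inv_mem_iff _).1 h)), map_zero]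
  have hne' : ∑ᶠ (x : G) (_ : x ∈ B.C W ⊓ Cu z ∧ Reg ℓ x),
      χ (z * x) * starRingEnd ℂ (ψ (z * x)) ≠ 0 := by
    intro h0
    apply hne
    rw [← h0]
    refine finsum_congr fun x => ?_
    have h3 : (x ∈ {x : G | x ∈ B.C W ∧ x * z = z * x ∧ Reg ℓ x}) =
        (x ∈ B.C W ⊓ Cu z ∧ Reg ℓ x) := by
      rw [Set.mem_ofPred_eq, hK, and_assoc]
    have h4 : χ (z * x) * starRingEnd ℂ (ψ (z * x)) = χ (z * x) * χ' (y⁻¹ * (z * x)⁻¹ * y) := by
      rw [hψ, hstar]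
      congr 2
      group
    rw [h3, h4]
  have hzY : z ∈ Y := (hY z).2 hzW'
  obtain ⟨β, hβ, hβ1, hβ2⟩ := com smg rot hM (hB.lb W).blk.blk.1 hcB.blk.1 hχ.2 hψE hzW hzY hz
    hK hK' hne'
  -- the first pair
  obtain ⟨g, hg, v, hv, hβg⟩ := psc ℓ M hM h2 V₀ G E₀ hE B hB W z hzW hz β hβ hβ1
  -- the second pair
  have hz' : El ℓ (y⁻¹ * z * y) := by
    obtain ⟨n, hn⟩ := hz
    refine ⟨n, ?_⟩
    have e : y⁻¹ * z * y = MulAut.conj y⁻¹ z := by
      rw [MulAut.conj_apply, inv_inv]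
    rw [e, ← map_pow, hn, map_one]
  have hK2 : ∀ x, x ∈ B.C W' ⊓ Cu (y⁻¹ * z * y) ↔ y * x * y⁻¹ ∈ B.C W ⊓ Cu z := by
    intro x
    rw [hK', hY, Subgroup.mem_inf, Subgroup.mem_centralizer_singleton_iff]
    have e : y⁻¹ * (y * x * y⁻¹) * y = x := by group
    rw [e]
    constructor
    · rintro ⟨h, h3⟩
      refine ⟨h, ?_⟩
      have e1 : y * x * y⁻¹ * z = y * (x * (y⁻¹ * z * y)) * y⁻¹ := by group
      rw [e1, h3]
      group
    · rintro ⟨h, h3⟩
      refine ⟨h, ?_⟩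
      have e1 : x * (y⁻¹ * z * y) = y⁻¹ * (y * x * y⁻¹ * z) * y := by group
      rw [e1, h3]
      group
  have hβ' : Bx (B.C W' ⊓ Cu (y⁻¹ * z * y)) (cj y⁻¹ β) := by
    refine T3.H62.bx_cj (fun x => ?_) hβ
    rw [inv_inv]
    exact hK2 x
  have hβ3 : mulF (fun t : (B.C W' ⊓ Cu (y⁻¹ * z * y) : Subgroup G) => B.b W' t)
      (fun t : (B.C W' ⊓ Cu (y⁻¹ * z * y) : Subgroup G) => cj y⁻¹ β t) =
      (fun t : (B.C W' ⊓ Cu (y⁻¹ * z * y) : Subgroup G) => cj y⁻¹ β t) := by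
    obtain ⟨e, he⟩ : ∃ e : (B.C W' ⊓ Cu (y⁻¹ * z * y) : Subgroup G) ≃*
        (B.C W ⊓ Cu z : Subgroup G), ∀ t, ((e t : (B.C W ⊓ Cu z : Subgroup G)) : G) =
          y * t * y⁻¹ :=
      ⟨{ toFun := fun t => ⟨y * t * y⁻¹, (hK2 _).1 t.2⟩
         invFun := fun t => ⟨y⁻¹ * t * y, (hK2 _).2 (by
            have e : y * (y⁻¹ * (t : G) * y) * y⁻¹ = t := by group
            rw [e]
            exact t.2)⟩
         left_inv := fun t => Subtype.ext (by
            show y⁻¹ * (y * (t : G) * y⁻¹) * y = t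
            group)
         right_inv := fun t => Subtype.ext (by
            show y * (y⁻¹ * (t : G) * y) * y⁻¹ = t
            group)
         map_mul' := fun s t => Subtype.ext (by
            show y * ((s : G) * t) * y⁻¹ = y * s * y⁻¹ * (y * t * y⁻¹)
            group) }, fun _ => rfl⟩
    have h3 := H18.mulF_equiv e (fun t : (B.C W ⊓ Cu z : Subgroup G) => cj y (B.b W') t)
      (fun t : (B.C W ⊓ Cu z : Subgroup G) => β t)
    rw [hβ2] at h3
    have e1 : (fun t : (B.C W' ⊓ Cu (y⁻¹ * z * y) : Subgroup G) =>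
        (fun t : (B.C W ⊓ Cu z : Subgroup G) => cj y (B.b W') t) (e t)) =
        fun t : (B.C W' ⊓ Cu (y⁻¹ * z * y) : Subgroup G) => B.b W' t := by
      funext t
      show B.b W' (y⁻¹ * ((e t : (B.C W ⊓ Cu z : Subgroup G)) : G) * y) = _
      rw [he]
      congr 1
      group
    have e2 : (fun t : (B.C W' ⊓ Cu (y⁻¹ * z * y) : Subgroup G) =>
        (fun t : (B.C W ⊓ Cu z : Subgroup G) => β t) (e t)) =
        fun t : (B.C W' ⊓ Cu (y⁻¹ * z * y) : Subgroup G) => cj y⁻¹ β t := by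
      funext t
      show β ((e t : (B.C W ⊓ Cu z : Subgroup G)) : G) = β (y⁻¹⁻¹ * t * y⁻¹)
      rw [he, inv_inv]
    rw [e1, e2] at h3
    exact h3
  obtain ⟨g', hg', v', hv', hβg'⟩ := psc ℓ M hM h2 V₀ G E₀ hE B hB W' _ hzW' hz' _ hβ' hβ3
  -- the fusion
  obtain ⟨τ, hτ⟩ : ∃ τ : G, τ = g⁻¹ * y * g' := ⟨_, rfl⟩
  have hgW : ∀ p ∈ W, g⁻¹ * B.i p * g = B.i p := by
    intro p hpW
    rw [mul_assoc, (memC W g).1 hg p hpW, inv_mul_cancel_left]
  have hgW' : ∀ q ∈ W', g' * B.i q * g'⁻¹ = B.i q := by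
    intro q hqW
    rw [← (memC W' g').1 hg' q hqW, mul_inv_cancel_right]
  have hτv : τ * B.i v' * τ⁻¹ = B.i v := by
    have e1 : τ * B.i v' * τ⁻¹ = g⁻¹ * (y * (g' * B.i v' * g'⁻¹) * y⁻¹) * g := by
      rw [hτ]
      group
    rw [e1, ← hv']
    have e2 : y * (y⁻¹ * z * y) * y⁻¹ = z := by group
    rw [e2, hv]
    group
  have hτq : ∀ q ∈ W', τ * B.i q * τ⁻¹ = g⁻¹ * (y * B.i q * y⁻¹) * g := by
    intro q hqW
    have e1 : τ * B.i q * τ⁻¹ = g⁻¹ * (y * (g' * B.i q * g'⁻¹) * y⁻¹) * g := by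
      rw [hτ]
      group
    rw [e1, hgW' q hqW]
  have hzk : ∀ k : ℤ, g⁻¹ * z ^ k * g = B.i (v ^ k) := by
    intro k
    rw [hv, map_zpow, conj_zpow]
    group
  have hτk : ∀ k : ℤ, τ * B.i (v' ^ k) * τ⁻¹ = B.i (v ^ k) := by
    intro k
    rw [map_zpow, ← conj_zpow, hτv, map_zpow]
  have hc1 : ∀ u ∈ W' ⊔ Subgroup.zpowers v', ∃ u₂ ∈ W ⊔ Subgroup.zpowers v,
      τ * B.i u * τ⁻¹ = B.i u₂ := by
    intro u hu
    obtain ⟨q, hqW, w, ⟨k, rfl⟩, rfl⟩ := Subgroup.mem_sup.1 hu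
    obtain ⟨p, hpW, j, h3⟩ := hq q hqW
    refine ⟨p * v ^ j * v ^ k, ?_, ?_⟩
    · refine Subgroup.mul_mem _ (Subgroup.mul_mem _ ?_ ?_) ?_
      · exact (le_sup_left : W ≤ W ⊔ Subgroup.zpowers v) hpW
      · exact (le_sup_right : Subgroup.zpowers v ≤ W ⊔ Subgroup.zpowers v) ⟨j, rfl⟩
      · exact (le_sup_right : Subgroup.zpowers v ≤ W ⊔ Subgroup.zpowers v) ⟨k, rfl⟩
    · have e1 : τ * B.i (q * v' ^ k) * τ⁻¹ = (τ * B.i q * τ⁻¹) * (τ * B.i (v' ^ k) * τ⁻¹) := by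
        rw [map_mul]
        group
      show τ * B.i (q * v' ^ k) * τ⁻¹ = _
      rw [e1, hτk, hτq q hqW, h3, map_mul, map_mul]
      congr 1
      have e2 : g⁻¹ * (B.i p * z ^ j) * g = (g⁻¹ * B.i p * g) * (g⁻¹ * z ^ j * g) := by group
      rw [e2, hgW p hpW, hzk]
  have hc2 : ∀ u₂ ∈ W ⊔ Subgroup.zpowers v, ∃ u ∈ W' ⊔ Subgroup.zpowers v',
      τ * B.i u * τ⁻¹ = B.i u₂ := by
    intro u hu
    obtain ⟨p, hpW, w, ⟨k, rfl⟩, rfl⟩ := Subgroup.mem_sup.1 hu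
    obtain ⟨q, hqW, j, h3⟩ := hp p hpW
    refine ⟨q * v' ^ j * v' ^ k, ?_, ?_⟩
    · refine Subgroup.mul_mem _ (Subgroup.mul_mem _ ?_ ?_) ?_
      · exact (le_sup_left : W' ≤ W' ⊔ Subgroup.zpowers v') hqW
      · exact (le_sup_right : Subgroup.zpowers v' ≤ W' ⊔ Subgroup.zpowers v') ⟨j, rfl⟩
      · exact (le_sup_right : Subgroup.zpowers v' ≤ W' ⊔ Subgroup.zpowers v') ⟨k, rfl⟩
    · have e1 : τ * B.i (q * v' ^ j * v' ^ k) * τ⁻¹ =
          (τ * B.i q * τ⁻¹) * (τ * B.i (v' ^ j) * τ⁻¹) * (τ * B.i (v' ^ k) * τ⁻¹) := by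
        rw [map_mul, map_mul]
        group
      show _ = B.i (p * v ^ k)
      rw [e1, hτk, hτk, hτq q hqW, map_mul]
      congr 1
      rw [← hgW p hpW, h3]
      have e2 : g⁻¹ * (y * B.i q * y⁻¹ * z ^ j) * g =
          (g⁻¹ * (y * B.i q * y⁻¹) * g) * (g⁻¹ * z ^ j * g) := by group
      rw [e2, hzk]
  have hcjτ : cj τ (B.b (W' ⊔ Subgroup.zpowers v')) = B.b (W ⊔ Subgroup.zpowers v) := by
    rw [hτ, ← cj_cj, ← cj_cj, ← hβg', cj_cj_inv, hβg, cj_inv_cj]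
  classical
  obtain ⟨f, hf⟩ : ∃ f : V₀ → V₀, ∀ u ∈ W' ⊔ Subgroup.zpowers v',
      f u ∈ W ⊔ Subgroup.zpowers v ∧ τ * B.i u * τ⁻¹ = B.i (f u) := by
    refine ⟨fun u => if h : u ∈ W' ⊔ Subgroup.zpowers v' then (hc1 u h).choose else 1,
      fun u hu => ?_⟩
    simp only [dif_pos hu]
    exact (hc1 u hu).choose_spec
  obtain ⟨σ, hσ, -, t, ht, hσt, htτ⟩ := fud ℓ M hM V₀ G E₀ hE B hB _ _ τ f
    (fun u hu => (hf u hu).2) (fun u hu => (hf u hu).1) (fun u₂ hu₂ => by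
      obtain ⟨u, hu, h3⟩ := hc2 u₂ hu₂
      refine ⟨u, hu, hB.inj ?_⟩
      rw [← (hf u hu).2, h3]) hcjτ
  refine ⟨σ, hσ, t, ht, hσt, g, hg, t⁻¹ * τ * g'⁻¹, ?_, v, ?_, hv⟩
  · refine Subgroup.mul_mem _ ?_ (inv_mem hg')
    rw [memC] at htτ ⊢
    intro q hqW
    exact htτ q ((le_sup_left : W' ≤ W' ⊔ Subgroup.zpowers v') hqW)
  · rw [hτ]
    group

end Pool.Agent.PP.SD.H95
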