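import Pool.Agent.ASD.Stmts5
import Pool.Agent.Helper9_ASO.PPC

/-!
# Squad ASD, row PPE: continuity of the local part

Author: helper95.
-/

open scoped BigOperators

set_option autoImplicit false

noncomputable section

namespace Pool.Agent.PP.SD.H95E

open Pool.Agent.PP.SO Pool.Agent.PP.SO.H9P

theorem ux_go' {ℓ : ℕ} [Fact ℓ.Prime] {K : ℕ} {V₀ : Type} [CommGroup V₀]
    {U U' : Subgroup V₀ → ℚ} {W : Subgroup V₀} (ha : ∃ q ∈ SOR.Rl ℓ, U W = 1 + ℓ * q)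
    (hb : ∃ q ∈ SOR.Rl ℓ, U' W = 1 + ℓ * q) (hc : ∃ q ∈ SOR.Rl ℓ, U W - U' W = ℓ ^ K * q)
    (x : V₀) :
    Go ℓ K (ux U W x) (ux U' W x) ∧ Go ℓ K (ux U W x)⁻¹ (ux U' W x)⁻¹ := by
  unfold ux
  by_cases hx : x ∈ W
  · rw [if_pos hx, if_pos hx, inv_one]
    exact ⟨Go.refl (one_mem _), Go.refl (one_mem _)⟩
  · rw [if_neg hx, if_neg hx]
    obtain ⟨q, hq, e⟩ := ha
    obtain ⟨q', hq', e'⟩ := hb
    obtain ⟨h1, h2⟩ := unit_of ℓ hq e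
    obtain ⟨h3, h4⟩ := unit_of ℓ hq' e'
    have h5 : Go ℓ K (U W) (U' W) := by
      refine ⟨?_, ?_, hc⟩
      · rw [e]
        exact add_mem (one_mem _) (mul_mem (l_mem ℓ) hq)
      · rw [e']
        exact add_mem (one_mem _) (mul_mem (l_mem ℓ) hq')
    exact ⟨h5, h5.inv h1 h3 h2 h4⟩

theorem ux_one {V₀ : Type} [CommGroup V₀] (U : Subgroup V₀ → ℚ) {W : Subgroup V₀} {x : V₀}
    (hx : x ∈ W) : ux U W x = 1 := if_pos hx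

/-- PPE -/
theorem ppe : PpeStmt := by
  intro ℓ _ V₀ _ _ E₀ A₁ A₂ n c d hc hd F₁₃ F₁₂
  classical
  have := Fintype.ofFinite V₀
  have : Finite (MulAut V₀) := inferInstance
  have := Fintype.ofFinite (MulAut V₀)
  obtain ⟨K₀, hK₀⟩ := SOR.H3.exists_pow_fin ℓ
    ((Finset.univ : Finset (Set (SO.SS n V₀))).image (fun L => mob F₁₃ L) ∪
      (Finset.univ : Finset (Set (SO.SS n V₀))).image (fun L => mob F₁₂ L))
  refine ⟨K₀, fun K hK U U' hU hU' hUU => ?_⟩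
  have hO : ∀ W, Of A₁ A₂ W → ∀ x, Go ℓ K (ux U W x) (ux U' W x) ∧
      Go ℓ K (ux U W x)⁻¹ (ux U' W x)⁻¹ := fun W hW x =>
    ux_go' (hU W hW) (hU' W hW) (hUU W hW) x
  have hpow : ∀ v : ℚ, (ℓ : ℚ) ^ K₀ * v ∈ SOR.Rl ℓ → (ℓ : ℚ) ^ K * v ∈ SOR.Rl ℓ := by
    intro v hv
    obtain ⟨j, rfl⟩ := Nat.exists_eq_add_of_le hK
    rw [add_comm, pow_add, mul_assoc]
    exact mul_mem (lp_mem ℓ j) hv
  have h13 : ∀ L, (ℓ : ℚ) ^ K * mob F₁₃ L ∈ SOR.Rl ℓ := fun L => hpow _ (hK₀ _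
    (Finset.mem_union_left _ (Finset.mem_image_of_mem _ (Finset.mem_univ L))))
  have h12 : ∀ L, (ℓ : ℚ) ^ K * mob F₁₂ L ∈ SOR.Rl ℓ := fun L => hpow _ (hK₀ _
    (Finset.mem_union_right _ (Finset.mem_image_of_mem _ (Finset.mem_univ L))))
  have hA : ∀ W : Subgroup V₀, W ≠ ⊥ → W ≠ A₂ → ∀ x ∈ A₁, Go ℓ K (ux U W x) (ux U' W x) := by
    intro W h1 h2 x hx
    by_cases h3 : W = A₁
    · rw [h3, ux_one U hx, ux_one U' hx]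
      exact Go.refl (one_mem _)
    · exact (hO W ⟨h1, h3, h2⟩ x).1
  have hP1 : ∀ U : Subgroup V₀ → ℚ, PX13 E₀ A₁ A₂ U c d F₁₃ =
      ∑ L ∈ Finset.univ.filter (fun L : Set (SO.SS n V₀) => pL L ≠ ⊥ ∧ pL L ≠ A₂ ∧ qL L ≠ ⊥ ∧
        qL L ≠ A₂ ∧ ¬ (pL L = A₁ ∧ qL L = A₁)), mob F₁₃ L * P13 E₀ U c d L := fun U =>
    fin_P (fun L : Set (SO.SS n V₀) => pL L ≠ ⊥ ∧ pL L ≠ A₂ ∧ qL L ≠ ⊥ ∧
        qL L ≠ A₂ ∧ ¬ (pL L = A₁ ∧ qL L = A₁)) _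
  have hP2 : ∀ U : Subgroup V₀ → ℚ, PX12 E₀ A₁ A₂ U c d F₁₂ =
      ∑ L ∈ Finset.univ.filter (fun L : Set (SO.SS n V₀) => Of A₁ A₂ (pL L)),
        mob F₁₂ L * P12X E₀ A₁ A₂ U c d L := fun U =>
    fin_P (fun L : Set (SO.SS n V₀) => Of A₁ A₂ (pL L)) _
  have hd1 : PX13 E₀ A₁ A₂ U c d F₁₃ - PX13 E₀ A₁ A₂ U' c d F₁₃ ∈ SOR.Rl ℓ := by
    rw [hP1, hP1, ← Finset.sum_sub_distrib]
    refine sum_mem fun L hL => ?_
    obtain ⟨hp1, hp2, hq1, hq2, -⟩ := (Finset.mem_filter.1 hL).2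
    have g13 : Go ℓ K (P13 E₀ U c d L) (P13 E₀ U' c d L) := by
      unfold P13
      exact ((hA _ hp1 hp2 c hc).mul (hA _ hq1 hq2 d hd)).mul (Go.nat _)
    exact g13.diff (h13 L)
  have hd2 : PX12 E₀ A₁ A₂ U c d F₁₂ - PX12 E₀ A₁ A₂ U' c d F₁₂ ∈ SOR.Rl ℓ := by
    rw [hP2, hP2, ← Finset.sum_sub_distrib]
    refine sum_mem fun L hL => ?_
    have hp := (Finset.mem_filter.1 hL).2
    have g12 : Go ℓ K (P12X E₀ A₁ A₂ U c d L) (P12X E₀ A₁ A₂ U' c d L) := by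
      have hS : ∀ U : Subgroup V₀ → ℚ, P12X E₀ A₁ A₂ U c d L =
          ∑ σ ∈ Finset.univ.filter (fun σ : MulAut V₀ => σ ∈ EL E₀ L ∧
            Of A₁ A₂ (aL (c * σ d) L)),
            ux U (pL L) c * ux U (pL L) (σ d) / ux U (pL L) (c * σ d) *
              (ux U (aL (c * σ d) L) (c * σ d) * N12 E₀ (c * σ d) L) := fun U =>
        fin_P (fun σ : MulAut V₀ => σ ∈ EL E₀ L ∧ Of A₁ A₂ (aL (c * σ d) L)) _
      rw [hS, hS]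
      refine Go.sum _ _ _ fun σ hσ => ?_
      have ha := (Finset.mem_filter.1 hσ).2.2
      rw [div_eq_mul_inv, div_eq_mul_inv]
      exact (((hO _ hp c).1.mul (hO _ hp (σ d)).1).mul (hO _ hp (c * σ d)).2).mul
        ((hO _ ha (c * σ d)).1.mul (Go.nat _))
    exact g12.diff (h12 L)
  have h1 : (PX13 E₀ A₁ A₂ U c d F₁₃ + PX12 E₀ A₁ A₂ U c d F₁₂) -
      (PX13 E₀ A₁ A₂ U' c d F₁₃ + PX12 E₀ A₁ A₂ U' c d F₁₂) =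
      (PX13 E₀ A₁ A₂ U c d F₁₃ - PX13 E₀ A₁ A₂ U' c d F₁₃) +
      (PX12 E₀ A₁ A₂ U c d F₁₂ - PX12 E₀ A₁ A₂ U' c d F₁₂) := by ring
  rw [h1]
  exact add_mem hd1 hd2

end Pool.Agent.PP.SD.H95E
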