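import Pool.Agent.ASD.Stmts8
import Pool.Agent.Helper57_K9.Stmts3

/-!
# Squad ASD, row S2D: the theorem for the datum of a block

Author: helper95.
-/

open scoped BigOperators

set_option autoImplicit false

noncomputable section

namespace Pool.Agent.PP.SD.H95S

open Pool.Agent.Helper51_AWC Pool.Agent.Helper79_WRA Pool.Agent.PP Pool.Agent.PP.KF
open Pool.Agent.PP.K9 Pool.Agent.PP.K9.H97 Pool.Agent.PP.H75 Pool.Agent.PP.T3 Pool.Agent.PP.SO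

attribute [local instance] Ideal.Quotient.field

/-- a block with a defect group of order `ℓ ^ 2` has between `1` and `ℓ ^ 2` modular characters -/
theorem bnd (kl : K9.KlStmt) (lbd : K9.LbdStmt) {ℓ : ℕ} [Fact ℓ.Prime]
    {M : Ideal (integralClosure ℤ ℂ)} [M.IsMaximal] (hM : (ℓ : integralClosure ℤ ℂ) ∈ M)
    {G : Type} [Group G] [Finite G] {e : G → FF M} (he : IsBlk e) {V : Subgroup G}
    (hV : Tp ℓ e V) (hc : Nat.card V = ℓ ^ 2) : 1 ≤ ln e ∧ ln e ≤ ℓ ^ 2 := by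
  obtain ⟨h1, h2⟩ := lbd ℓ M hM G e he.1 he.2.1
  exact ⟨h1, h2.trans (kl ℓ M hM G e he V hV hc)⟩

/-- S2D -/
theorem s2d (g4d : G4dStmt) (l4d : L4dStmt) (lnh : LnhStmt) (lnj : LnjStmt) (lnn : LnnStmt)
    (kl : K9.KlStmt) (lbd : K9.LbdStmt) (chv : K9.ChvStmt) (nvt : T3.NvtStmt) : S2dStmt := by
  intro ℓ hℓ M _ hM h2 V₀ G _ _ _ _ E₀ A₁ A₂ hD B hB
  obtain ⟨G₁, G₂, G₃, _, _, _, _, _, _, B₁, B₂, B₃, j₁, j₂, j₃, j₄, hB1, hB2, hB3, p1, p2, p3, p4,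
    n1, n2, n3⟩ := g4d ℓ M hM h2 V₀ G E₀ A₁ A₂ hD B hB
  have hdiv := l4d ℓ M hM h2 V₀ E₀ A₁ A₂ hD G G₁ G₂ G₃ B B₁ B₂ B₃ j₁ j₂ j₃ j₄ hB hB1 hB2 hB3
    p1 p2 p3 p4
  have hA : ∀ A : Subgroup V₀, Nat.card A = ℓ → A ≠ ⊥ := by
    intro A h h0
    rw [h0, Subgroup.card_bot] at h
    exact hℓ.out.one_lt.ne h
  have e1 : ln B₁.e = lT B :=
    (lnh ℓ M hM V₀ G₁ E₀ hD.toFq B₁ hB1.toSb A₁ (hA A₁ hD.c1) n1).trans
      (lnj ℓ M hM V₀ G G₁ E₀ A₁ B B₁ j₁ hB.toSb hB1.toSb p1)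
  have e2' : lT B₂ = lT B := lnj ℓ M hM V₀ G G₂ E₀ A₂ B B₂ j₂ hB.toSb hB2.toSb p2
  have e2 : ln B₂.e = lT B :=
    (lnh ℓ M hM V₀ G₂ E₀ hD.toFq B₂ hB2.toSb A₂ (hA A₂ hD.c2) n2).trans e2'
  have e3 : ln B₃.e = lT B :=
    ((lnh ℓ M hM V₀ G₃ E₀ hD.toFq B₃ hB3.toSb A₁ (hA A₁ hD.c1) n3).trans
      (lnj ℓ M hM V₀ G₂ G₃ E₀ A₁ B₂ B₃ j₃ hB2.toSb hB3.toSb p3)).trans e2'
  rw [e1, e2, e3] at hdiv
  have hdiv' : ((ℓ ^ 2 : ℕ) : ℤ) ∣ (ln B.e : ℤ) - lT B := by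
    have h3 : (ln B.e : ℤ) - lT B - lT B + lT B = (ln B.e : ℤ) - lT B := by ring
    rwa [h3] at hdiv
  have hld := hB.ld
  have hcV : Nat.card B.i.range = ℓ ^ 2 := by
    rw [← hD.cd]
    exact (Nat.card_congr (MonoidHom.ofInjective hB.inj).toEquiv).symm
  obtain ⟨b1, b2⟩ := bnd kl lbd hM hld.blk hld.tp hcV
  have hN := (nvt ℓ M hM G B.e B.i.range B.g hld).1
  have hcN : Nat.card (B.i.range.subgroupOf (Subgroup.normalizer (B.i.range : Set G))) = ℓ ^ 2 := by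
    rw [← hcV]
    exact Nat.card_congr (Subgroup.subgroupOfEquivOfLe Subgroup.le_normalizer).toEquiv
  obtain ⟨b3, b4⟩ := bnd kl lbd hM hN.blk hN.tp hcN
  have hlnn := lnn ℓ M hM V₀ G E₀ B hB.toSb
  rw [hlnn] at b3 b4
  have heq : (ln B.e : ℤ) = lT B := by
    have h3 : (ln B.e : ℤ) - lT B = 0 := by
      apply Int.eq_zero_of_abs_lt_dvd hdiv'
      have c1 : (1 : ℤ) ≤ ln B.e := by exact_mod_cast b1
      have c2 : (ln B.e : ℤ) ≤ ((ℓ ^ 2 : ℕ) : ℤ) := by exact_mod_cast b2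
      have c3 : (1 : ℤ) ≤ lT B := by exact_mod_cast b3
      have c4 : (lT B : ℤ) ≤ ((ℓ ^ 2 : ℕ) : ℤ) := by exact_mod_cast b4
      rw [abs_lt]
      constructor <;> linarith
    linarith
  have hch := chv ℓ M hM G B.e hld.blk B.i.range hld.tp hcV
  have h5 : ({f : G → FF M | f ∈ IBr (FF M) G ∧ actF B.e f = f}.ncard : ℤ) = (ln B.e : ℤ) := rfl
  have h6 : ({f : Subgroup.normalizer (B.i.range : Set G) → FF M |
      f ∈ IBr (FF M) (Subgroup.normalizer (B.i.range : Set G)) ∧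
      actF (fun t : Subgroup.normalizer (B.i.range : Set G) => br B.i.range B.e t) f =
        f}.ncard : ℤ) = (lT B : ℤ) := by
    rw [← hlnn]
    rfl
  rw [h5, h6, heq, sub_self] at hch
  exact hch

end Pool.Agent.PP.SD.H95S
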